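import Pool.Agent.N754.FG.Stm
import Pool.Agent.H39R3.Tor.SUnit

set_option autoImplicit false

/-!
# Roquette's theorem: number fields, and the induction (tasks RQ2, RQ3 of `Pool.Agent.N754.FG.Stm`)
-/

namespace Pool.Agent.N455.FG

open IsDedekindDomain NumberField
open Pool.Agent.N754.FG

/-- subgroups of finitely generated commutative groups -/
lemma fg_of_le {G : Type} [CommGroup G] {A B : Subgroup G} (h : A ≤ B) (hB : B.FG) : A.FG := by
  have h1 : (AddSubgroup.toIntSubmodule B.toAddSubgroup).FG := by
    rw [Submodule.fg_iff_addSubgroup_fg]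
    exact (Subgroup.fg_iff_add_fg B).1 hB
  have h2 := isNoetherian_of_fg_of_noetherian _ h1
  have h3 := (isNoetherian_submodule.1 h2) (AddSubgroup.toIntSubmodule A.toAddSubgroup) (by
    intro x hx
    exact h hx)
  rw [Submodule.fg_iff_addSubgroup_fg] at h3
  exact (Subgroup.fg_iff_add_fg A).2 h3

/-- integral elements have small valuation -/
lemma val_le {M : Type} [Field M] {Γ : Type} [LinearOrderedCommGroupWithZero Γ] (v : Valuation M Γ)
    (s : Set M) (hs : ∀ x ∈ s, v x ≤ 1) (u : M) (hu : IsIntegral (Algebra.adjoin ℤ s) u) :
    v u ≤ 1 := by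
  have h1 : ∀ x : Algebra.adjoin ℤ s, (x : M) ∈ v.integer := by
    intro x
    have h2 : Algebra.adjoin ℤ s ≤ subalgebraOfSubring v.integer := Algebra.adjoin_le (by
      intro y hy
      exact hs y hy)
    exact h2 x.2
  let j : Algebra.adjoin ℤ s →+* v.integer :=
    { toFun := fun x => ⟨x, h1 x⟩
      map_one' := rfl
      map_mul' := fun _ _ => rfl
      map_zero' := rfl
      map_add' := fun _ _ => rfl }
  have h3 : IsIntegral v.integer (RingHom.id M u) :=
    hu.map_of_comp_eq j (RingHom.id M) (by ext x; rfl)
  exact (Valuation.integer.integers v).mem_of_integral h3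

theorem rq2 : RQ2 := by
  intro M _ _ s hs
  set S : Set (HeightOneSpectrum (𝓞 M)) := ⋃ x ∈ s, HeightOneSpectrum.Support (𝓞 M) x with hS
  have hfin : S.Finite := hs.biUnion fun x _ => HeightOneSpectrum.Support.finite (𝓞 M) x
  refine fg_of_le ?_ (Pool.Agent.H39R3.Tor.sunit_fg M S hfin)
  intro u hu v hv
  have hv' : ∀ x ∈ s, v.valuation M x ≤ 1 := by
    intro x hx
    by_contra hcon
    push Not at hcon
    exact hv (Set.mem_biUnion hx hcon)
  have h1 := val_le (v.valuation M) s hv' _ hu.1
  have h2 := val_le (v.valuation M) s hv' _ hu.2
  have h3 : v.valuation M (u : M) * v.valuation M ((u⁻¹ : Mˣ) : M) = 1 := by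
    rw [← map_mul, Units.mul_inv, map_one]
  refine le_antisymm h1 ?_
  calc (1 : _) = v.valuation M (u : M) * v.valuation M ((u⁻¹ : Mˣ) : M) := h3.symm
    _ ≤ v.valuation M (u : M) * 1 := by gcongr
    _ = v.valuation M (u : M) := mul_one _

/-- fields obtained from number fields by finite extensions of rational function fields -/
inductive FGF : (M : Type) → Field M → Prop
  | base (M : Type) (i : Field M) (h : NumberField M) : FGF M i
  | step (k M : Type) (ik : Field k) (iM : Field M) (f : RatFunc k →+* M) (hf : f.Finite)
      (h : FGF k ik) : FGF M iM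

lemma FGF.charZero {M : Type} {i : Field M} (h : FGF M i) : CharZero M := by
  induction h with
  | base M i h => exact h.to_charZero
  | step k M ik iM f hf h ih =>
    exact charZero_of_injective_ringHom (f := f.comp (algebraMap k (RatFunc k)))
      (RingHom.injective _)

lemma FGF.fin {M κ : Type} {i : Field M} {j : Field κ} (f : M →+* κ) (hf : f.Finite)
    (h : FGF M i) : FGF κ j := by
  cases h with
  | base _ _ h =>
    let := f.toAlgebra
    have : Module.Finite M κ := hf
    exact FGF.base κ j (NumberField.of_module_finite M κ)
  | step k _ ik _ f0 hf0 h => exact FGF.step k κ ik j (f.comp f0) (hf.comp hf0) h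

lemma FGF.q (h1 : RQ1) {k : Type} {i : Field k} (h : FGF k i) :
    ∀ (κ : Type) [Field κ] [Algebra k κ] [FiniteDimensional k κ] (t : Set κ), t.Finite →
      (IU t).FG := by
  induction h with
  | base k i h =>
    intro κ _ _ _ t ht
    have := h
    have : NumberField κ := NumberField.of_module_finite k κ
    exact rq2 κ t ht
  | step k0 k ik0 ik f hf h ih =>
    intro κ _ _ _ t ht
    have : CharZero k0 := h.charZero
    have h2 : ((algebraMap k κ).comp f).Finite :=
      (RingHom.finite_algebraMap.2 inferInstance).comp hf
    exact h1 k0 κ ((algebraMap k κ).comp f) h2 ih t ht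

lemma FGF.gen {M : Type} [iM : Field M] (T : Finset M) :
    ∀ (F : Type) (iF : Field F) (_ : Algebra F M), FGF F iF →
      IntermediateField.adjoin F (T : Set M) = ⊤ → FGF M iM := by
  classical
  induction T using Finset.induction_on with
  | empty =>
    intro F iF _ hF hT
    rw [Finset.coe_empty, IntermediateField.adjoin_empty] at hT
    have h1 : Function.Surjective (algebraMap F M) := by
      intro x
      have h2 : x ∈ (⊥ : IntermediateField F M) := by rw [hT]; trivial
      exact IntermediateField.mem_bot.1 h2
    exact hF.fin (algebraMap F M) (RingHom.Finite.of_surjective _ h1)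
  | insert a T _ ih =>
    intro F iF _ hF hT
    refine ih (IntermediateField.adjoin F {a}) inferInstance inferInstance ?_ ?_
    · by_cases ha : IsAlgebraic F a
      · have h1 : FiniteDimensional F (IntermediateField.adjoin F {a}) :=
          IntermediateField.adjoin.finiteDimensional ha.isIntegral
        exact hF.fin (algebraMap F (IntermediateField.adjoin F {a}))
          (RingHom.finite_algebraMap.2 h1)
      · have e := RatFunc.algEquivOfTranscendental (K := F) a ha
        exact FGF.step F _ iF _ (e : RatFunc F →+* IntermediateField.adjoin F {a})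
          (RingHom.Finite.of_surjective _ e.surjective) hF
    · have h1 := IntermediateField.adjoin_adjoin_left F ({a} : Set M) (T : Set M)
      rw [Set.singleton_union, ← Finset.coe_insert, hT] at h1
      rw [eq_top_iff]
      intro x _
      have h2 : x ∈ (IntermediateField.adjoin (IntermediateField.adjoin F {a})
        (T : Set M)).restrictScalars F := by rw [h1]; trivial
      exact h2

theorem rq3 (h1 : RQ1) : RQ3 := by
  intro R M _ _ _ hR iM _ _ s hs
  have hM : CharZero M := charZero_of_injective_algebraMap (IsFractionRing.injective R M)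
  obtain ⟨T, hT⟩ := hR.out
  classical
  have hF : FGF M iM := by
    refine FGF.gen (T.image (algebraMap R M)) ℚ inferInstance inferInstance
      (FGF.base ℚ inferInstance inferInstance) ?_
    rw [eq_top_iff]
    intro x _
    have h2 : ∀ r : R, algebraMap R M r ∈ IntermediateField.adjoin ℚ
        ((T.image (algebraMap R M) : Finset M) : Set M) := by
      intro r
      have h3 : r ∈ Algebra.adjoin ℤ (T : Set R) := by rw [hT]; trivial
      induction h3 using Algebra.adjoin_induction with
      | mem y hy =>
        apply IntermediateField.subset_adjoin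
        rw [Finset.coe_image]
        exact Set.mem_image_of_mem _ hy
      | algebraMap z =>
        rw [eq_intCast, map_intCast]
        exact intCast_mem _ z
      | add y z _ _ hy hz => rw [map_add]; exact add_mem hy hz
      | mul y z _ _ hy hz => rw [map_mul]; exact mul_mem hy hz
    obtain ⟨a, b, hb, rfl⟩ := IsFractionRing.div_surjective (A := R) x
    exact div_mem (h2 a) (h2 b)
  exact hF.q h1 M s hs

end Pool.Agent.N455.FG
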